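import Mathlib

set_option maxHeartbeats 400000

namespace Pool.Agent.H.MP_626926_al

open Cardinal

lemma isClosed_of_loc {A B : Type} [TopologicalSpace B] [DiscreteTopology B] (S : Set (A → B))
    (h : ∀ f : A → B, (∀ F : Finset A, ∃ g ∈ S, ∀ a ∈ F, g a = f a) → f ∈ S) : IsClosed S := by
  rw [← closure_subset_iff_isClosed]
  intro f hf
  refine h f fun F => ?_
  obtain ⟨g, h1, h2⟩ := mem_closure_iff_nhds.1 hf (Set.pi F fun a => {f a})
    (set_pi_mem_nhds F.finite_toSet fun a _ => (isOpen_discrete _).mem_nhds rfl)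
  exact ⟨g, h2, fun a ha => h1 a ha⟩

abbrev W := ℚ_[2] × ℚ_[2]

def B (n : ℕ) : AddSubgroup W where
  carrier := {v | ‖v‖ < 1 / (n + 1)}
  zero_mem' := by simp only [Set.mem_setOf_eq, norm_zero]; positivity
  neg_mem' := fun h => by simpa using h
  add_mem' := fun {a b} ha hb => by
    simp only [Set.mem_setOf_eq, Prod.norm_def, max_lt_iff] at *
    exact ⟨lt_of_le_of_lt (Padic.nonarchimedean _ _) (max_lt ha.1 hb.1),
      lt_of_le_of_lt (Padic.nonarchimedean _ _) (max_lt ha.2 hb.2)⟩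

instance (n : ℕ) : Countable (W ⧸ B n) := by
  have : Function.Surjective fun k => (QuotientAddGroup.mk (TopologicalSpace.denseSeq W k) : W ⧸ B n) := by
    intro q
    obtain ⟨w, rfl⟩ := QuotientAddGroup.mk_surjective q
    obtain ⟨k, hk⟩ := Metric.denseRange_iff.1 (TopologicalSpace.denseRange_denseSeq W) w
      (1 / (n + 1)) (by positivity)
    refine ⟨k, QuotientAddGroup.eq.2 ?_⟩
    show ‖_‖ < _
    rwa [dist_eq_norm, sub_eq_neg_add] at hk
  exact this.countable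

abbrev Y := Σ n : ℕ, W ⧸ B n

instance : Infinite Y := Infinite.of_injective (fun n : ℕ => (⟨n, 0⟩ : Y))
  fun _ _ h => congrArg Sigma.fst h

noncomputable def τ (v : W) (y : Y) : Y := ⟨y.1, y.2 + QuotientAddGroup.mk v⟩

theorem τ_eq {u v : W} {y : Y} : τ u y = τ v y ↔ ‖u - v‖ < 1 / (y.1 + 1) := by
  simp only [τ, Sigma.mk.injEq, heq_eq_eq, true_and, add_right_inj]
  rw [eq_comm, QuotientAddGroup.eq, neg_add_eq_sub]
  rfl

theorem τ_add (u v : W) (y : Y) : τ (u + v) y = τ u (τ v y) := by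
  have : y.2 + QuotientAddGroup.mk (u + v) =
      y.2 + QuotientAddGroup.mk v + QuotientAddGroup.mk u := by
    rw [QuotientAddGroup.mk_add]; abel
  exact congrArg (Sigma.mk y.1) this

theorem exists_act (X : Type) [Countable X] [Infinite X] :
    ∃ σ : W → X → X, σ 0 = id ∧ (∀ u v, σ (u + v) = σ u ∘ σ v) ∧ Function.Injective σ ∧
      ∀ S : Set W, IsClosed S → ∀ f : X → X,
        (∀ F : Finset X, ∃ g ∈ σ '' S, ∀ a ∈ F, g a = f a) → f ∈ σ '' S := by
  classical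
  obtain ⟨e⟩ : Nonempty (Y ≃ X) := nonempty_equiv_of_countable
  have key : ∀ {u v : W} {y : Y}, e (τ u (e.symm (e y))) = e (τ v (e.symm (e y))) ↔
      ‖u - v‖ < 1 / (y.1 + 1) := by
    intro u v y
    rw [e.symm_apply_apply, e.apply_eq_iff_eq, τ_eq]
  refine ⟨fun v x => e (τ v (e.symm x)), funext fun x => by simp [τ], fun u v => funext fun x => ?_,
    fun u v h => ?_, fun S hS f hf => ?_⟩
  · show e (τ (u + v) (e.symm x)) = e (τ u (e.symm (e (τ v (e.symm x)))))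
    rw [e.symm_apply_apply, τ_add]
  · rw [← sub_eq_zero, ← norm_le_zero_iff]
    by_contra hc
    obtain ⟨n, hn⟩ := exists_nat_one_div_lt (not_le.1 hc)
    exact lt_asymm hn ((key (y := ⟨n, 0⟩)).1 (congrFun h _))
  · choose g hg hgf using hf
    choose v hv hvg using hg
    let s : ℕ → W := fun n => v {e ⟨n, 0⟩}
    have h1 : ∀ (n : ℕ) (F : Finset X), e ⟨n, 0⟩ ∈ F → ‖v F - s n‖ < 1 / (n + 1) := by
      intro n F hF
      refine (key (y := ⟨n, 0⟩)).1 ?_
      have a1 := hgf F _ hF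
      have a2 := hgf {e ⟨n, 0⟩} _ (Finset.mem_singleton_self _)
      rw [← hvg] at a1 a2
      exact a1.trans a2.symm
    have h2 : ∀ n m : ℕ, n ≤ m → s m - s n ∈ B n := by
      intro n m hnm
      have a1 : v {e ⟨n, 0⟩, e ⟨m, 0⟩} - s n ∈ B n := h1 n _ (by simp)
      have a2 : v {e ⟨n, 0⟩, e ⟨m, 0⟩} - s m ∈ B n :=
        lt_of_lt_of_le (h1 m _ (by simp)) (Nat.one_div_le_one_div hnm)
      have := (B n).sub_mem a1 a2
      rwa [sub_sub_sub_cancel_left] at this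
    have hc : CauchySeq s := by
      refine Metric.cauchySeq_iff'.2 fun ε hε => ?_
      obtain ⟨n, hn⟩ := exists_nat_one_div_lt hε
      exact ⟨n, fun m hm => by rw [dist_eq_norm]; exact lt_trans (h2 n m hm) hn⟩
    obtain ⟨w, hw⟩ := cauchySeq_tendsto_of_complete hc
    refine ⟨w, hS.mem_of_tendsto hw (Filter.Eventually.of_forall fun n => hv _), funext fun x => ?_⟩
    obtain ⟨y, rfl⟩ := e.surjective x
    have a1 := hgf {e y, e ⟨y.1, 0⟩} (e y) (by simp)
    rw [← a1, ← hvg]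
    refine key.2 ?_
    obtain ⟨N, hN⟩ := Metric.tendsto_atTop.1 hw (1 / (y.1 + 1)) (by positivity)
    have a2 : s (max N y.1) - w ∈ B y.1 := by
      have := hN (max N y.1) (le_max_left _ _)
      rwa [dist_eq_norm] at this
    have a3 := h2 y.1 (max N y.1) (le_max_right _ _)
    have a4 : v {e y, e ⟨y.1, 0⟩} - s y.1 ∈ B y.1 := h1 y.1 _ (by simp)
    have := (B y.1).sub_mem ((B y.1).sub_mem a3 a2) a4
    have e2 : s (max N y.1) - s y.1 - (s (max N y.1) - w) - (v {e y, e ⟨y.1, 0⟩} - s y.1) =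
        w - v {e y, e ⟨y.1, 0⟩} := by abel
    rwa [e2] at this

theorem exists_lines (L : Type) [Lattice L] [BoundedOrder L]
    (hL : IsAntichain (· ≤ ·) {x : L | x ≠ ⊥ ∧ x ≠ ⊤})
    (hc : #{x : L // x ≠ ⊥ ∧ x ≠ ⊤} = continuum) :
    ∃ S : L → AddSubgroup W, Function.Injective S ∧ (∀ a, IsClosed (S a : Set W)) ∧
      (∀ a b, S (a ⊓ b) = S a ⊓ S b) ∧ ∀ a b, S (a ⊔ b) = S a ⊔ S b := by
  classical
  obtain ⟨c⟩ : Nonempty ({x : L // x ≠ ⊥ ∧ x ≠ ⊤} ↪ ℚ_[2]) := by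
    rw [← Cardinal.le_def, hc]
    exact continuum_le_cardinal_of_nontriviallyNormedField _
  have hne : (⊥ : L) ≠ ⊤ := by
    obtain ⟨x⟩ : Nonempty {x : L // x ≠ ⊥ ∧ x ≠ ⊤} := by
      rw [← Cardinal.mk_ne_zero_iff, hc]; exact continuum_ne_zero
    intro h
    exact x.2.1 (le_bot_iff.1 (le_top.trans h.ge))
  let ln : ℚ_[2] → AddSubgroup W := fun t =>
    { carrier := {v | v.2 = t * v.1}
      zero_mem' := by simp
      neg_mem' := fun {a} h => by simp only [Set.mem_setOf_eq] at *; simp [h]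
      add_mem' := fun {a b} ha hb => by simp only [Set.mem_setOf_eq] at *; simp [ha, hb, mul_add] }
  have hm : ∀ t (v : W), v ∈ ln t ↔ v.2 = t * v.1 := fun _ _ => Iff.rfl
  have linf : ∀ s t, s ≠ t → ln s ⊓ ln t = ⊥ := by
    intro s t h
    refine eq_bot_iff.2 fun v hv => ?_
    have h1 := (hm _ _).1 hv.1
    have h2 := (hm _ _).1 hv.2
    have h3 : v.1 = 0 := by
      apply mul_left_cancel₀ (sub_ne_zero.2 h)
      linear_combination h2 - h1
    exact Prod.ext h3 (by rw [h1, h3]; simp)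
  have lsup : ∀ s t, s ≠ t → ln s ⊔ ln t = ⊤ := by
    intro s t h
    refine eq_top_iff.2 fun v _ => ?_
    have h' := sub_ne_zero.2 h
    refine AddSubgroup.mem_sup.2 ⟨((v.2 - t * v.1) / (s - t), s * ((v.2 - t * v.1) / (s - t))), rfl,
      ((s * v.1 - v.2) / (s - t), t * ((s * v.1 - v.2) / (s - t))), rfl, Prod.ext ?_ ?_⟩ <;>
    simp only [Prod.fst_add, Prod.snd_add] <;> field_simp <;> ring
  have lbot : ∀ s, ln s ≠ ⊥ := fun s h => by
    have : ((1, s) : W) ∈ ln s := by simp [hm]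
    rw [h] at this
    simp at this
  have ltop : ∀ s, ln s ≠ ⊤ := fun s h => by
    have : ((0, 1) : W) ∈ ln s := h ▸ AddSubgroup.mem_top _
    simp [hm] at this
  let S : L → AddSubgroup W := fun a =>
    if h : a ≠ ⊥ ∧ a ≠ ⊤ then ln (c ⟨a, h⟩) else if a = ⊥ then ⊥ else ⊤
  have Sb : S ⊥ = ⊥ := by simp [S]
  have St : S ⊤ = ⊤ := by simp [S, hne.symm]
  have Sm : ∀ a (h : a ≠ ⊥ ∧ a ≠ ⊤), S a = ln (c ⟨a, h⟩) := fun a h => dif_pos h
  have tri : ∀ a : L, a = ⊥ ∨ a = ⊤ ∨ (a ≠ ⊥ ∧ a ≠ ⊤) := fun a => by tauto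
  have bt : (⊥ : AddSubgroup W) ≠ ⊤ := bot_ne_top
  have mid : ∀ a b : L, (a ≠ ⊥ ∧ a ≠ ⊤) → (b ≠ ⊥ ∧ b ≠ ⊤) → a ≠ b → a ⊓ b = ⊥ ∧ a ⊔ b = ⊤ := by
    intro a b ha hb hab
    constructor
    · by_contra h
      have h1 : a ⊓ b ≠ ⊤ := fun h' => ha.2 (top_le_iff.1 (h' ▸ inf_le_left))
      have h2 := hL.eq ⟨h, h1⟩ ha inf_le_left
      have h3 := hL.eq ⟨h, h1⟩ hb inf_le_right
      exact hab (h2.symm.trans h3)
    · by_contra h
      have h1 : a ⊔ b ≠ ⊥ := fun h' => ha.1 (le_bot_iff.1 (h' ▸ le_sup_left))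
      have h2 := hL.eq ha ⟨h1, h⟩ le_sup_left
      have h3 := hL.eq hb ⟨h1, h⟩ le_sup_right
      exact hab (h2.trans h3.symm)
  have cne : ∀ a b (ha : a ≠ ⊥ ∧ a ≠ ⊤) (hb : b ≠ ⊥ ∧ b ≠ ⊤), a ≠ b → c ⟨a, ha⟩ ≠ c ⟨b, hb⟩ :=
    fun a b ha hb hab h => hab (congrArg Subtype.val (c.injective h))
  refine ⟨S, fun a b h => ?_, fun a => ?_, fun a b => ?_, fun a b => ?_⟩
  · rcases tri a with rfl | rfl | ha <;> rcases tri b with rfl | rfl | hb
    · rfl
    · rw [Sb, St] at h; exact absurd h bt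
    · rw [Sb, Sm b hb] at h; exact absurd h.symm (lbot _)
    · rw [Sb, St] at h; exact absurd h.symm bt
    · rfl
    · rw [St, Sm b hb] at h; exact absurd h.symm (ltop _)
    · rw [Sb, Sm a ha] at h; exact absurd h (lbot _)
    · rw [St, Sm a ha] at h; exact absurd h (ltop _)
    · by_contra hab
      have := linf _ _ (cne a b ha hb hab)
      rw [← Sm a ha, ← Sm b hb, h, inf_idem, Sm b hb] at this
      exact lbot _ this
  · rcases tri a with rfl | rfl | ha
    · rw [Sb]; exact isClosed_singleton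
    · rw [St]; exact isClosed_univ
    · rw [Sm a ha]
      exact isClosed_eq continuous_snd (continuous_const.mul continuous_fst)
  · rcases tri a with rfl | rfl | ha
    · simp [Sb]
    · simp [St]
    rcases tri b with rfl | rfl | hb
    · simp [Sb]
    · simp [St]
    by_cases hab : a = b
    · simp [hab]
    · rw [(mid a b ha hb hab).1, Sb, Sm a ha, Sm b hb, linf _ _ (cne a b ha hb hab)]
  · rcases tri a with rfl | rfl | ha
    · simp [Sb]
    · simp [St]
    rcases tri b with rfl | rfl | hb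
    · simp [Sb]
    · simp [St]
    by_cases hab : a = b
    · simp [hab]
    · rw [(mid a b ha hb hab).2, St, Sm a ha, Sm b hb, lsup _ _ (cne a b ha hb hab)]

end Pool.Agent.H.MP_626926_al
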